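import Pool.Agent.Lib.MP_0523aa_nt.Height

/-!
The maximal height of divisors of X^(3 q^b) - 1.
-/

set_option autoImplicit false

namespace Pool.Agent.FS.ThreeCase

open Polynomial Finset Pool.Agent.Lib.MP_0523aa_nt

theorem coeff_low_mul {q : ℕ} (hq : 0 < q) (u : ℕ → ℤ) (g : ℤ[X]) (k : ℕ) :
    ((∑ i ∈ range q, C (u i) * X ^ i) * expand ℤ q g).coeff k = u (k % q) * g.coeff (k / q) := by
  rw [sum_mul, finsetSum_coeff, sum_eq_single (k % q)]
  · rw [mul_assoc, coeff_C_mul, coeff_X_pow_mul', if_pos (Nat.mod_le k q), coeff_expand hq]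
    have h : k - k % q = q * (k / q) := by have := Nat.div_add_mod k q; omega
    rw [h, if_pos (dvd_mul_right _ _), Nat.mul_div_cancel_left _ hq]
  · intro i hi hne
    rw [mul_assoc, coeff_C_mul, coeff_X_pow_mul']
    split_ifs with h
    · rw [coeff_expand hq, if_neg, mul_zero]
      rintro ⟨c, hc⟩
      apply hne
      rw [show k = i + q * c by omega, Nat.add_mul_mod_self_left, Nat.mod_eq_of_lt (mem_range.1 hi)]
    · rw [mul_zero]
  · exact fun h => absurd (mem_range.2 (Nat.mod_lt k hq)) h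

theorem tele (ψ : ℕ → ℤ) (h : ∀ n, ψ n + ψ (n + 1) + ψ (n + 2) = 0) (m n : ℕ) :
    (X ^ 2 + X + 1) * ∑ i ∈ range n, C (ψ (m + i)) * X ^ i =
      (C (ψ m) + C (ψ m + ψ (m + 1)) * X) -
        X ^ n * (C (ψ (m + n)) + C (ψ (m + n) + ψ (m + n + 1)) * X : ℤ[X]) := by
  induction n with
  | zero => simp
  | succ n ih =>
    have h1 : ψ (m + (n + 1) + 1) = -ψ (m + n) - ψ (m + n + 1) := by
      have := h (m + n)
      rw [show m + (n + 1) + 1 = m + n + 2 by ring]
      linarith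
    rw [sum_range_succ, mul_add, ih, h1, show m + (n + 1) = m + n + 1 by ring]
    simp only [C_add, C_sub, C_neg]
    ring

theorem B_ne : (X ^ 2 + X + 1 : ℤ[X]) ≠ 0 := fun h => by
  have := congrArg (eval 0) h
  simp at this

theorem cyc_three {q : ℕ} (hq : q.Prime) (h3 : 3 < q) :
    (X ^ 2 + X + 1) * cyclotomic (3 * q) ℤ = X ^ (2 * q) + X ^ q + 1 := by
  have hnd : ¬q ∣ 3 := fun h => absurd (Nat.le_of_dvd (by norm_num) h) (by omega)
  have := cyclotomic_expand_eq_cyclotomic_mul hq hnd ℤ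
  rw [cyclotomic_three] at this
  rw [mul_comm, ← this]
  simp only [map_add, map_pow, expand_X, map_one]
  ring

theorem not_three {q : ℕ} (hq : q.Prime) (h3 : 3 < q) : q % 3 ≠ 0 := fun h => by
  have := (Nat.prime_dvd_prime_iff_eq Nat.prime_three hq).1 (Nat.dvd_of_mod_eq_zero h)
  omega

/-- The sequence of period three with values `x, y, -x-y`. -/
def per (x y : ℤ) (n : ℕ) : ℤ := if n % 3 = 0 then x else if n % 3 = 1 then y else -x - y

theorem per_three (x y : ℤ) (n d : ℕ) (hd : d % 3 ≠ 0) :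
    per x y n + per x y (n + d) + per x y (n + 2 * d) = 0 := by
  unfold per
  split_ifs <;> omega

theorem key {q : ℕ} (hq : q.Prime) (h3 : 3 < q) (x y : ℤ) (g : ℤ[X]) (k : ℕ) :
    ((C x + C (x + y) * X) * (cyclotomic (3 * q) ℤ * expand ℤ q g)).coeff k =
      per x y (k % q) * g.coeff (k / q) - per x y (2 * q + k % q) * (X * g).coeff (k / q) := by
  have hz : ∀ n, per x y n + per x y (n + 1) + per x y (n + 2) = 0 := fun n =>
    per_three x y n 1 (by norm_num)
  have h1 := tele (per x y) hz 0 q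
  have h2 := tele (per x y) hz (2 * q) q
  have hq3 := not_three hq h3
  have e0 : per x y 0 = x := rfl
  have e1 : per x y 1 = y := rfl
  have e2 : per x y (2 * q + q) = x := by unfold per; rw [if_pos (by omega)]
  have e3 : per x y (2 * q + q + 1) = y := by unfold per; rw [if_neg (by omega), if_pos (by omega)]
  have e4 : per x y (2 * q) = -x - per x y q := by
    have := per_three x y 0 q hq3
    rw [zero_add, zero_add, e0] at this
    linarith
  have e5 : per x y (2 * q + 1) = -y - per x y (q + 1) := by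
    have := per_three x y 1 q hq3
    rw [e1, add_comm 1 q, add_comm 1 (2 * q)] at this
    linarith
  simp only [zero_add, e0, e1] at h1
  rw [e2, e3, e4, e5] at h2
  have h4 : (C x + C (x + y) * X) * cyclotomic (3 * q) ℤ =
      ∑ i ∈ range q, C (per x y i) * X ^ i -
        X ^ q * ∑ i ∈ range q, C (per x y (2 * q + i)) * X ^ i := by
    apply mul_left_cancel₀ B_ne
    rw [mul_left_comm, cyc_three hq h3, mul_sub, mul_left_comm, h1, h2]
    simp only [C_add, C_sub, C_neg]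
    ring
  rw [← mul_assoc, h4, sub_mul, coeff_sub, coeff_low_mul hq.pos, mul_comm (X ^ q), mul_assoc,
    show (X ^ q : ℤ[X]) * expand ℤ q g = expand ℤ q (X * g) by rw [map_mul, expand_X],
    coeff_low_mul hq.pos (fun i => per x y (2 * q + i))]

theorem bdd_X {N : ℤ} {g : ℤ[X]} (hg : Bdd N g) : Bdd N (X * g) := by
  simpa using bdd_X_pow_mul hg 1

theorem bdd_add' {M N : ℤ} {f g : ℤ[X]} (hf : Bdd M f) (hg : Bdd N g) : Bdd (M + N) (f + g) :=
  fun k => by rw [coeff_add]; exact (abs_add_le _ _).trans (add_le_add (hf k) (hg k))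

theorem bdd_neg {M : ℤ} {f : ℤ[X]} (hf : Bdd M f) : Bdd M (-f) :=
  fun k => by rw [coeff_neg, abs_neg]; exact hf k

theorem bdd_mono {M N : ℤ} {f : ℤ[X]} (hf : Bdd M f) (h : M ≤ N) : Bdd N f :=
  fun k => (hf k).trans h

theorem bdd_low {q : ℕ} (hq : 0 < q) {N : ℤ} {g : ℤ[X]} (hg : Bdd N g) (u : ℕ → ℤ)
    (hu : ∀ i, |u i| ≤ 1) : Bdd N ((∑ i ∈ range q, C (u i) * X ^ i) * expand ℤ q g) := fun k => by
  rw [coeff_low_mul hq, abs_mul]
  simpa using mul_le_mul (hu _) (hg (k / q)) (abs_nonneg _) zero_le_one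

/-- The factor chosen at level `i + 1`. -/
noncomputable def lev3 (q : ℕ) (s t : Bool) (i : ℕ) : ℤ[X] :=
  (if s then cyclotomic (q ^ (i + 1)) ℤ else 1) * (if t then cyclotomic (3 * q ^ (i + 1)) ℤ else 1)

/-- The product of the factors chosen at the levels `1, ..., b`. -/
noncomputable def tail3 (q : ℕ) (s t : ℕ → Bool) (b : ℕ) : ℤ[X] :=
  ∏ i ∈ range b, lev3 q (s i) (t i) i

theorem expand_lev3 {q : ℕ} (hq : q.Prime) (s t : Bool) (i : ℕ) :
    expand ℤ q (lev3 q s t i) = lev3 q s t (i + 1) := by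
  have h1 : expand ℤ q (cyclotomic (q ^ (i + 1)) ℤ) = cyclotomic (q ^ (i + 1 + 1)) ℤ := by
    rw [cyclotomic_expand_eq_cyclotomic hq (dvd_pow_self q (by omega)), ← pow_succ]
  have h2 : expand ℤ q (cyclotomic (3 * q ^ (i + 1)) ℤ) = cyclotomic (3 * q ^ (i + 1 + 1)) ℤ := by
    rw [cyclotomic_expand_eq_cyclotomic hq (Dvd.dvd.mul_left (dvd_pow_self q (by omega)) 3),
      mul_assoc, ← pow_succ]
  unfold lev3
  rw [map_mul]
  cases s <;> cases t <;> simp [h1, h2]

theorem tail3_succ {q : ℕ} (hq : q.Prime) (s t : ℕ → Bool) (b : ℕ) :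
    tail3 q s t (b + 1) =
      lev3 q (s 0) (t 0) 0 * expand ℤ q (tail3 q (fun i => s (i + 1)) (fun i => t (i + 1)) b) := by
  unfold tail3
  rw [Finset.prod_range_succ', map_prod, mul_comm]
  congr 1
  apply Finset.prod_congr rfl
  intro i _
  rw [expand_lev3 hq]

theorem cyc_q {q : ℕ} (hq : q.Prime) :
    cyclotomic q ℤ = ∑ i ∈ range q, C ((fun _ => 1 : ℕ → ℤ) i) * X ^ i := by
  have : Fact q.Prime := ⟨hq⟩
  simp [cyclotomic_prime ℤ q]

theorem lev_ft (q : ℕ) : lev3 q false true 0 = cyclotomic (3 * q) ℤ := by simp [lev3]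

theorem lev_tf (q : ℕ) : lev3 q true false 0 = cyclotomic q ℤ := by simp [lev3]

theorem bdd_expand {q : ℕ} (hq : 0 < q) {N : ℤ} {g : ℤ[X]} (hg : Bdd N g) :
    Bdd N (expand ℤ q g) := fun k => by
  rw [coeff_expand hq]
  split_ifs
  · exact hg _
  · simpa using bdd_nonneg hg

theorem bdd_tt {q : ℕ} (hq : q.Prime) (h3 : 3 < q) {N : ℤ} {g : ℤ[X]} (hg : Bdd N g) :
    Bdd N (cyclotomic q ℤ * cyclotomic (3 * q) ℤ * expand ℤ q g) := by
  have : Fact q.Prime := ⟨hq⟩
  have hq3 := not_three hq h3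
  have hnd : ¬3 ∣ q := fun h => hq3 (Nat.mod_eq_zero_of_dvd h)
  have h1 := cyclotomic_expand_eq_cyclotomic_mul Nat.prime_three hnd ℤ
  rw [mul_comm q 3, mul_comm (cyclotomic (3 * q) ℤ)] at h1
  rw [← h1, cyclotomic_prime ℤ q, map_sum, sum_mul]
  intro k
  rw [finsetSum_coeff]
  simp only [map_pow, expand_X, ← pow_mul, coeff_X_pow_mul', coeff_expand hq.pos]
  by_cases hex : ∃ i ∈ range q, 3 * i ≤ k ∧ q ∣ k - 3 * i
  · obtain ⟨i, hi, h2, h4⟩ := hex
    rw [sum_eq_single i]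
    · rw [if_pos h2, if_pos h4]
      exact hg _
    · intro j hj hne
      split_ifs with h5 h6
      · exfalso
        apply hne
        have h7 : 3 * j ≡ 3 * i [MOD q] :=
          ((Nat.modEq_iff_dvd' h5).2 h6).trans ((Nat.modEq_iff_dvd' h2).2 h4).symm
        exact Nat.ModEq.eq_of_lt_of_lt (Nat.ModEq.cancel_left_of_coprime
          ((Nat.coprime_primes hq Nat.prime_three).2 (by omega)) h7) (mem_range.1 hj)
          (mem_range.1 hi)
      · rfl
      · rfl
    · exact fun h => absurd hi h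
  · rw [sum_eq_zero]
    · simpa using bdd_nonneg hg
    · intro j hj
      split_ifs with h5 h6
      · exact absurd ⟨j, hj, h5, h6⟩ hex
      · rfl
      · rfl

theorem step_easy {q : ℕ} (hq : q.Prime) (h3 : 3 < q) {N : ℤ} {g : ℤ[X]} (hg : Bdd N g)
    (s t : Bool) (h : ¬(s = false ∧ t = true)) : Bdd N (lev3 q s t 0 * expand ℤ q g) := by
  cases s <;> cases t
  · simpa [lev3] using bdd_expand hq.pos hg
  · exact absurd ⟨rfl, rfl⟩ h
  · rw [lev_tf, cyc_q hq]
    exact bdd_low hq.pos hg _ fun _ => by simp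
  · simpa [lev3] using bdd_tt hq h3 hg

theorem key_abs {q : ℕ} (hq3 : q % 3 ≠ 0) (r : ℕ) (x y : ℤ) (P : ℤ → ℤ → Prop)
    (h1 : P x y) (h2 : P y x) (h3 : P x (-x - y)) (h4 : P (-x - y) x) (h5 : P y (-x - y))
    (h6 : P (-x - y) y) : P (per x y r) (per x y (2 * q + r)) := by
  unfold per
  split_ifs <;> first | assumption | omega

theorem key_abs2 {q : ℕ} (hq3 : q % 3 ≠ 0) (r : ℕ) (x y M a b : ℤ)
    (h : |x * a - y * b| ≤ M ∧ |y * a - x * b| ≤ M ∧ |x * a - (-x - y) * b| ≤ M ∧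
        |(-x - y) * a - x * b| ≤ M ∧ |y * a - (-x - y) * b| ≤ M ∧ |(-x - y) * a - y * b| ≤ M) :
    |per x y r * a - per x y (2 * q + r) * b| ≤ M :=
  key_abs hq3 r x y (fun u v => |u * a - v * b| ≤ M) h.1 h.2.1 h.2.2.1 h.2.2.2.1 h.2.2.2.2.1
    h.2.2.2.2.2

theorem step_odd {q : ℕ} (hq : q.Prime) (h3 : 3 < q) {N : ℤ} {g : ℤ[X]} (hg : Bdd N g)
    (hg' : Bdd N ((X + 1) * g)) (s t : Bool) : Bdd N (lev3 q s t 0 * expand ℤ q g) := by
  by_cases h : s = false ∧ t = true
  · obtain ⟨rfl, rfl⟩ := h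
    intro k
    have h1 := key hq h3 1 (-1) g k
    simp only [add_neg_cancel, map_zero, zero_mul, add_zero, map_one, one_mul] at h1
    rw [lev_ft, h1]
    have h2 := abs_le.1 (hg (k / q))
    have h4 := abs_le.1 (bdd_X hg (k / q))
    have h5 := abs_le.1 (hg' (k / q))
    rw [add_mul, one_mul, coeff_add] at h5
    refine key_abs (not_three hq h3) (k % q) 1 (-1)
      (fun a b => |a * g.coeff (k / q) - b * (X * g).coeff (k / q)| ≤ N) ?_ ?_ ?_ ?_ ?_ ?_ <;>
      rw [abs_le] <;> constructor <;> linarith [h2.1, h2.2, h4.1, h4.2, h5.1, h5.2]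
  · exact step_easy hq h3 hg s t h

/-- The bounds for the four possible factors of level zero. -/
def Four (M : ℤ) (h : ℤ[X]) : Prop :=
  Bdd M h ∧ Bdd M ((X - 1) * h) ∧ Bdd M ((X ^ 2 + X + 1) * h) ∧
    Bdd M ((X - 1) * ((X ^ 2 + X + 1) * h))

theorem bdd_B {N : ℤ} {h : ℤ[X]} (hh : Bdd N h) : Bdd (3 * N) ((X ^ 2 + X + 1) * h) := by
  have := bdd_add' (bdd_add' (bdd_X_pow_mul hh 2) (bdd_X hh)) hh
  rwa [show N + N + N = 3 * N by ring, show X ^ 2 * h + X * h + h = (X ^ 2 + X + 1) * h by ring]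
    at this

theorem four_of_bdd {N : ℤ} {h : ℤ[X]} (hh : Bdd N h) : Four (3 * N) h := by
  have h0 := bdd_nonneg hh
  refine ⟨bdd_mono hh (by linarith), ?_, bdd_B hh, ?_⟩
  · have := bdd_add' (bdd_X hh) (bdd_neg hh)
    rw [show X * h + -h = (X - 1) * h by ring] at this
    exact bdd_mono this (by linarith)
  · have := bdd_add' (bdd_X_pow_mul hh 3) (bdd_neg hh)
    rw [show X ^ 3 * h + -h = (X - 1) * ((X ^ 2 + X + 1) * h) by ring] at this
    exact bdd_mono this (by linarith)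

theorem step_even {q : ℕ} (hq : q.Prime) (h3 : 3 < q) {N : ℤ} {g : ℤ[X]} (hg : Bdd N g)
    (s t : Bool) : Bdd (2 * N) (lev3 q s t 0 * expand ℤ q g) ∧
      Bdd (2 * N) ((X + 1) * (lev3 q s t 0 * expand ℤ q g)) ∧
      Four (3 * N) (lev3 q s t 0 * expand ℤ q g) := by
  have h0 := bdd_nonneg hg
  by_cases h : s = false ∧ t = true
  · obtain ⟨rfl, rfl⟩ := h
    rw [lev_ft]
    have gen : ∀ (x y M : ℤ), (∀ a b : ℤ, -N ≤ a → a ≤ N → -N ≤ b → b ≤ N →
        |x * a - y * b| ≤ M ∧ |y * a - x * b| ≤ M ∧ |x * a - (-x - y) * b| ≤ M ∧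
        |(-x - y) * a - x * b| ≤ M ∧ |y * a - (-x - y) * b| ≤ M ∧ |(-x - y) * a - y * b| ≤ M) →
        Bdd M ((C x + C (x + y) * X) * (cyclotomic (3 * q) ℤ * expand ℤ q g)) := by
      intro x y M hM k
      rw [key hq h3]
      have h2 := abs_le.1 (hg (k / q))
      have h4 := abs_le.1 (bdd_X hg (k / q))
      generalize g.coeff (k / q) = A at h2 ⊢
      generalize (X * g).coeff (k / q) = B at h4 ⊢
      exact key_abs2 (not_three hq h3) (k % q) x y M A B (hM A B h2.1 h2.2 h4.1 h4.2)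
    have g1 := gen 1 (-1) (2 * N) fun a b _ _ _ _ => by
      refine ⟨?_, ?_, ?_, ?_, ?_, ?_⟩ <;> rw [abs_le] <;> constructor <;> linarith
    have g2 := gen 1 0 (2 * N) fun a b _ _ _ _ => by
      refine ⟨?_, ?_, ?_, ?_, ?_, ?_⟩ <;> rw [abs_le] <;> constructor <;> linarith
    have g3 := gen (-1) 2 (3 * N) fun a b _ _ _ _ => by
      refine ⟨?_, ?_, ?_, ?_, ?_, ?_⟩ <;> rw [abs_le] <;> constructor <;> linarith
    rw [show (C 1 + C (1 + -1) * X : ℤ[X]) = 1 by simp, one_mul] at g1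
    rw [show (C 1 + C (1 + 0) * X : ℤ[X]) = X + 1 by simp [add_comm]] at g2
    rw [show (C (-1) + C (-1 + 2) * X : ℤ[X]) = X - 1 by
      rw [show (-1 + 2 : ℤ) = 1 by norm_num]; simp; ring] at g3
    have e : (X ^ 2 + X + 1) * (cyclotomic (3 * q) ℤ * expand ℤ q g) =
        expand ℤ q ((X ^ 2 + X + 1) * g) := by
      rw [← mul_assoc, cyc_three hq h3]
      simp only [map_add, map_mul, map_pow, expand_X, map_one]
      ring
    refine ⟨g1, g2, bdd_mono g1 (by linarith), g3, e ▸ bdd_expand hq.pos (bdd_B hg), ?_⟩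
    rw [e]
    have e2 : (X - 1 : ℤ[X]) = ∑ i ∈ range q,
        C ((fun i => if i = 0 then -1 else if i = 1 then 1 else 0 : ℕ → ℤ) i) * X ^ i := by
      obtain ⟨p, rfl⟩ : ∃ p, q = p + 1 + 1 := ⟨q - 2, by omega⟩
      rw [sum_range_succ', sum_range_succ']
      simp
      ring
    rw [e2]
    exact bdd_low hq.pos (bdd_B hg) _ fun i => by split_ifs <;> simp
  · have h1 := step_easy hq h3 hg s t h
    refine ⟨bdd_mono h1 (by linarith), ?_, four_of_bdd h1⟩
    have := bdd_add' (bdd_X h1) h1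
    rwa [← two_mul, ← add_one_mul] at this

theorem even_level {q : ℕ} (hq : q.Prime) (h3 : 3 < q) (m : ℕ) : ∀ s t : ℕ → Bool,
    Bdd (2 ^ m) (tail3 q s t (2 * m)) ∧ Bdd (2 ^ m) ((X + 1) * tail3 q s t (2 * m)) := by
  induction m with
  | zero =>
    intro s t
    simp only [tail3, mul_zero, range_zero, prod_empty, pow_zero, mul_one]
    constructor <;> intro k
    · rw [coeff_one]; split_ifs <;> simp
    · rw [coeff_add, coeff_one, coeff_X]; split_ifs <;> simp <;> omega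
  | succ m ih =>
    intro s t
    rw [show 2 * (m + 1) = 2 * m + 1 + 1 by ring, tail3_succ hq, tail3_succ hq, pow_succ']
    have := step_even hq h3 (step_odd hq h3 (ih (fun i => s (i + 1 + 1)) fun i => t (i + 1 + 1)).1
      (ih _ _).2 (s (0 + 1)) (t (0 + 1))) (s 0) (t 0)
    exact ⟨this.1, this.2.1⟩

theorem odd_level {q : ℕ} (hq : q.Prime) (h3 : 3 < q) (m : ℕ) (s t : ℕ → Bool) :
    Bdd (2 ^ m) (tail3 q s t (2 * m + 1)) := by
  rw [tail3_succ hq]
  exact step_odd hq h3 (even_level hq h3 m _ _).1 (even_level hq h3 m _ _).2 _ _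

theorem four_tail {q : ℕ} (hq : q.Prime) (h3 : 3 < q) (b : ℕ) (s t : ℕ → Bool) :
    Four (3 * 2 ^ (b / 2)) (tail3 q s t (b + 1)) := by
  obtain ⟨m, rfl | rfl⟩ := Nat.even_or_odd' b
  · rw [show 2 * m / 2 = m by omega]
    exact four_of_bdd (odd_level hq h3 m s t)
  · rw [show (2 * m + 1) / 2 = m by omega, tail3_succ hq]
    exact (step_even hq h3 (odd_level hq h3 m _ _) _ _).2.2

theorem full_prod3 {q : ℕ} (hq : q.Prime) (h3 : 3 < q) (b : ℕ) :
    tail3 q (fun _ => true) (fun _ => true) b * (X ^ 2 + X + 1) * (X - 1) =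
      X ^ (3 * q ^ b) - 1 := by
  have : Fact q.Prime := ⟨hq⟩
  induction b with
  | zero =>
    simp only [tail3, range_zero, prod_empty, pow_zero]
    ring
  | succ b ih =>
    rw [tail3_succ hq]
    have h1 : cyclotomic q ℤ * (X - 1) = X ^ q - 1 := cyclotomic_prime_mul_X_sub_one ℤ q
    have h2 := cyc_three hq h3
    have h5 := congrArg (expand ℤ q) ih
    simp only [map_mul, map_sub, map_add, map_one, map_pow, expand_X] at h5
    have h4 : ((X : ℤ[X]) ^ q) ^ (3 * q ^ b) = X ^ (3 * q ^ (b + 1)) := by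
      rw [← pow_mul]
      congr 1
      ring
    rw [h4, ← pow_mul, mul_comm q 2, ← h2, ← h1] at h5
    rw [← h5]
    simp only [lev3, zero_add, pow_one, if_true]
    ring

theorem dvd_tail3 {q : ℕ} (hq : q.Prime) (b : ℕ) :
    ∀ f : ℤ[X], f ∣ tail3 q (fun _ => true) (fun _ => true) b →
      ∃ s t : ℕ → Bool, Associated f (tail3 q s t b) := by
  induction b with
  | zero =>
    intro f hf
    refine ⟨fun _ => true, fun _ => true, ?_⟩
    simp only [tail3, range_zero, prod_empty] at hf ⊢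
    exact associated_one_iff_isUnit.2 (isUnit_of_dvd_one hf)
  | succ b ih =>
    intro f hf
    have hpos : 0 < q ^ (b + 1) := pow_pos hq.pos _
    have i1 : Irreducible (cyclotomic (q ^ (b + 1)) ℤ) := cyclotomic.irreducible hpos
    have i2 : Irreducible (cyclotomic (3 * q ^ (b + 1)) ℤ) := cyclotomic.irreducible (by omega)
    have e : tail3 q (fun _ => true) (fun _ => true) (b + 1) =
        tail3 q (fun _ => true) (fun _ => true) b * cyclotomic (q ^ (b + 1)) ℤ *
          cyclotomic (3 * q ^ (b + 1)) ℤ := by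
      unfold tail3
      rw [Finset.prod_range_succ]
      simp only [lev3, if_true]
      ring
    rw [e] at hf
    obtain ⟨f₁, t0, h1, h1a⟩ := dvd_irred_split i2 hf
    obtain ⟨f₂, s0, h2, h2a⟩ := dvd_irred_split i1 h1
    obtain ⟨s, t, h3⟩ := ih f₂ h2
    refine ⟨Function.update s b s0, Function.update t b t0, ?_⟩
    have e2 : tail3 q (Function.update s b s0) (Function.update t b t0) (b + 1) =
        tail3 q s t b * (if s0 then cyclotomic (q ^ (b + 1)) ℤ else 1) *
          (if t0 then cyclotomic (3 * q ^ (b + 1)) ℤ else 1) := by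
      unfold tail3
      rw [Finset.prod_range_succ, mul_assoc]
      congr 1
      · apply Finset.prod_congr rfl
        intro i hi
        have : i ≠ b := by
          have := Finset.mem_range.1 hi
          omega
        simp [Function.update_of_ne this]
      · simp [lev3]
    rw [e2]
    exact h1a.trans (Associated.mul_right (h2a.trans (Associated.mul_right h3 _)) _)

theorem upper {q : ℕ} (hq : q.Prime) (h3 : 3 < q) (b : ℕ) (f : ℤ[X])
    (hf : f ∣ X ^ (3 * q ^ (b + 1)) - 1) : Bdd (3 * 2 ^ (b / 2)) f := by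
  rw [← full_prod3 hq h3] at hf
  have i1 : Irreducible (X - 1 : ℤ[X]) := cyclotomic_one ℤ ▸ cyclotomic.irreducible one_pos
  have i2 : Irreducible (X ^ 2 + X + 1 : ℤ[X]) :=
    cyclotomic_three ℤ ▸ cyclotomic.irreducible three_pos
  obtain ⟨f₁, u, h1, h1a⟩ := dvd_irred_split i1 hf
  obtain ⟨f₂, v, h2, h2a⟩ := dvd_irred_split i2 h1
  obtain ⟨s, t, h4⟩ := dvd_tail3 hq _ f₂ h2
  obtain ⟨a1, a2, a3, a4⟩ := four_tail hq h3 b s t
  refine bdd_of_associated
    (h1a.trans (Associated.mul_right (h2a.trans (Associated.mul_right h4 _)) _)) ?_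
  cases u <;> cases v
  · simpa using a1
  · simpa [mul_comm] using a3
  · simpa [mul_comm] using a2
  · have e : tail3 q s t (b + 1) * (X ^ 2 + X + 1) * (X - 1) =
        (X - 1) * ((X ^ 2 + X + 1) * tail3 q s t (b + 1)) := by ring
    simp only [if_true]
    rw [e]
    exact a4

theorem tail3_dvd (q : ℕ) (s t : ℕ → Bool) (b : ℕ) :
    tail3 q s t b ∣ tail3 q (fun _ => true) (fun _ => true) b :=
  prod_dvd_prod_of_dvd _ _ fun i _ => by
    unfold lev3
    cases s i <;> cases t i <;> simp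

theorem flat {q : ℕ} (hq : q.Prime) (g : ℤ[X]) (k r : ℕ) (hr : r < q) :
    (lev3 q true false 0 * expand ℤ q g).coeff (r + q * k) = g.coeff k := by
  rw [lev_tf, cyc_q hq, coeff_low_mul hq.pos, one_mul, Nat.add_mul_div_left _ _ hq.pos,
    Nat.div_eq_of_lt hr, zero_add]

theorem lower_even {q : ℕ} (hq : q.Prime) (h3 : 3 < q) (m : ℕ) :
    ∃ (s t : ℕ → Bool) (k : ℕ), |(tail3 q s t (2 * m)).coeff k| = 2 ^ m := by
  induction m with
  | zero => exact ⟨fun _ => true, fun _ => true, 0, by simp [tail3]⟩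
  | succ m ih =>
    obtain ⟨s, t, k, hk⟩ := ih
    have hq3 := not_three hq h3
    obtain ⟨r, hr, hr'⟩ : ∃ r < q, (per 1 (-1) r = 1 ∧ per 1 (-1) (2 * q + r) = -1) ∨
        (per 1 (-1) r = -1 ∧ per 1 (-1) (2 * q + r) = 1) := by
      by_cases h : q % 3 = 1
      · exact ⟨1, by omega, Or.inr ⟨rfl, by unfold per; rw [if_pos (by omega)]⟩⟩
      · exact ⟨0, by omega, Or.inl ⟨rfl, by unfold per; rw [if_neg (by omega), if_pos (by omega)]⟩⟩
    refine ⟨fun i => match i with | 0 => false | 1 => true | i + 2 => s i,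
      fun i => match i with | 0 => true | 1 => false | i + 2 => t i, r + q * (1 + q * k), ?_⟩
    rw [show 2 * (m + 1) = 2 * m + 1 + 1 by ring, tail3_succ hq, tail3_succ hq]
    have h1 := key hq h3 1 (-1) (lev3 q true false 0 * expand ℤ q (tail3 q s t (2 * m)))
      (r + q * (1 + q * k))
    simp only [add_neg_cancel, map_zero, zero_mul, add_zero, map_one, one_mul] at h1
    rw [Nat.add_mul_mod_self_left, Nat.mod_eq_of_lt hr, Nat.add_mul_div_left _ _ hq.pos,
      Nat.div_eq_of_lt hr, zero_add, flat hq _ k 1 (by omega),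
      show 1 + q * k = 0 + q * k + 1 by ring, coeff_X_mul, flat hq _ k 0 (by omega)] at h1
    show |(lev3 q false true 0 * expand ℤ q
      (lev3 q true false 0 * expand ℤ q (tail3 q s t (2 * m)))).coeff _| = _
    rw [lev_ft, show 1 + q * k = 0 + q * k + 1 by ring, h1, pow_succ', ← hk]
    rcases hr' with ⟨a, b⟩ | ⟨a, b⟩ <;> rw [a, b]
    · rw [show ∀ c : ℤ, 1 * c - -1 * c = 2 * c from fun c => by ring, abs_mul, abs_two]
    · rw [show ∀ c : ℤ, -1 * c - 1 * c = -(2 * c) from fun c => by ring, abs_neg, abs_mul, abs_two]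

theorem lower {q : ℕ} (hq : q.Prime) (h3 : 3 < q) (b : ℕ) :
    ∃ (f : ℤ[X]) (k : ℕ), f ∣ X ^ (3 * q ^ (b + 1)) - 1 ∧ |f.coeff k| = 3 * 2 ^ (b / 2) := by
  obtain ⟨s, t, k, hk⟩ := lower_even hq h3 (b / 2)
  refine ⟨(X ^ 2 + X + 1) * (lev3 q true false 0 * expand ℤ q (tail3 q s t (2 * (b / 2)))),
    0 + q * k + 2, ?_, ?_⟩
  · have h1 : lev3 q true false 0 * expand ℤ q (tail3 q s t (2 * (b / 2))) =
        tail3 q (fun i => match i with | 0 => true | i + 1 => s i)
          (fun i => match i with | 0 => false | i + 1 => t i) (2 * (b / 2) + 1) := by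
      rw [tail3_succ hq]
    have h2 : (X ^ (3 * q ^ (2 * (b / 2) + 1)) - 1 : ℤ[X]) ∣ X ^ (3 * q ^ (b + 1)) - 1 := by
      obtain ⟨c, hc⟩ := Nat.mul_dvd_mul_left 3 (pow_dvd_pow q (by omega : 2 * (b / 2) + 1 ≤ b + 1))
      rw [hc, pow_mul X (3 * q ^ (2 * (b / 2) + 1)) c]
      simpa using sub_dvd_pow_sub_pow (X ^ (3 * q ^ (2 * (b / 2) + 1)) : ℤ[X]) 1 c
    refine dvd_trans ?_ h2
    rw [h1, ← full_prod3 hq h3, mul_comm]
    exact (mul_dvd_mul_right (tail3_dvd q _ _ _) _).mul_right _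
  · rw [add_mul, add_mul, one_mul, coeff_add, coeff_add, coeff_X_pow_mul, flat hq _ k 0 (by omega),
      show 0 + q * k + 2 = 1 + q * k + 1 by ring, coeff_X_mul, flat hq _ k 1 (by omega),
      show 1 + q * k + 1 = 2 + q * k by ring, flat hq _ k 2 (by omega), ← hk,
      show ∀ c : ℤ, c + c + c = 3 * c from fun c => by ring, abs_mul]
    norm_num

end Pool.Agent.FS.ThreeCase
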